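import Mathlib
import Pool.Agent.FCE.Defs
import Pool.Agent.FCE.T4.Main

/-!
Problem MP_fce80c_co, Q1, case `t = 4`: optimally pseudorandom `K_4`-free graphs. The exponent
`t - 1 = 3` is attained, on every number of vertices.
-/

namespace Pool.Agent.Results.MP_fce80c_co.ExponentThree

/-- There are constants `C, c > 0` and a function `p` with `p n → 0` such that for every `n ≥ 1`
one has `0 < p n ≤ 1`, `c n ^ (-1 / 5) ≤ p n ≤ n ^ (-1 / 5)`, and there is a `K_4`-free graph on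
`n` vertices which is `(p n, β)`-jumbled for some `β > 0` with `β ≤ C √(p n * n)` and
`β ≤ C (p n) ^ 3 n`. -/
theorem result : ∃ C : ℝ, 0 < C ∧ ∃ c : ℝ, 0 < c ∧ ∃ p : ℕ → ℝ,
    Filter.Tendsto p Filter.atTop (nhds 0) ∧
    ∀ n : ℕ, 1 ≤ n → 0 < p n ∧ p n ≤ 1 ∧ c * (n : ℝ) ^ (-(1 / 5) : ℝ) ≤ p n ∧
      p n ≤ (n : ℝ) ^ (-(1 / 5) : ℝ) ∧
      ∃ (G : SimpleGraph (Fin n)) (β : ℝ), G.CliqueFree 4 ∧ 0 < β ∧
        β ≤ C * Real.sqrt (p n * (n : ℝ)) ∧ β ≤ C * (p n) ^ 3 * (n : ℝ) ∧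
        Pool.Agent.FCE.Jumbled G (p n) β :=
  Pool.Agent.FCE.T4.all_n

end Pool.Agent.Results.MP_fce80c_co.ExponentThree
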