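import Mathlib
import Pool.Agent.FCE.OptDefs
import Pool.Agent.FCE.OptMain
import Pool.Agent.OPG.OddMain

/-!
Problem MP_fce80c_co, Q1: for every odd `t ≥ 5` there are optimally jumbled `K_t`-free graphs of
density at least `c n ^ (-1 / t)`; they attain the exponent `(t + 1) / 2`.
-/

namespace Pool.Agent.Results.MP_fce80c_co.OddCliques

/-- For every odd `t ≥ 5` there are constants `C, c > 0` and, for infinitely many `n`, a
`K_t`-free `(p, β)`-jumbled graph on `n` vertices with `p = p(n) → 0`, `p ≥ c n ^ (-1 / t)`,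
`β ≤ C √(p n)` and `β ≤ C p ^ ((t + 1) / 2) n`. -/
theorem result (t : ℕ) (ht : Odd t) (h5 : 5 ≤ t) :
    Pool.Agent.FCE.OptimallyAttained t (((t : ℝ) + 1) / 2) := by
  obtain ⟨r, hr⟩ := ht
  obtain ⟨s, rfl⟩ : ∃ s, t = 2 * s + 3 := ⟨r - 1, by omega⟩
  obtain ⟨C, hC, c, hc, h⟩ := Pool.Agent.OPG.odd_main_two s
  exact Pool.Agent.FCE.optimally_of (2 * s + 3) (by omega) C c hC hc h

end Pool.Agent.Results.MP_fce80c_co.OddCliques
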